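import Pool.Agent.H20.CSat3

namespace Pool.Agent.Results.MP_2b57cc_co.Linear

open H20.CSat

theorem result : ∀ (m : ℕ) (i : Fin m → ℕ), 1 ≤ m → (∀ j, 1 ≤ i j) →
    ∃ C : ℕ, ∀ n : ℕ, 1 ≤ n → sat n i ≤ C * n :=
  fun _ i hm hp => linear i hm hp

end Pool.Agent.Results.MP_2b57cc_co.Linear
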